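import Pool.Agent.H.MP_cf558f_lc.Ram

set_option autoImplicit false

namespace Pool.Agent.Results.MP_cf558f_lc.Fast

open Pool.Agent.H.MP_cf558f_lc Function MulOpposite

/-- deterministic finite automaton with translucent words over the alphabet `Fin s` -/
structure DFAtw (Q : Type) (s : ℕ) where
  τ : Q → Finset (List (Fin s))
  q0 : Q
  F : Set Q
  δ : Q → Fin s → Option Q
  code : ∀ q, (τ q).Nonempty → ∀ x y, (x ∈ τ q ∨ ∃ a, δ q a ≠ none ∧ x = [a]) →
    (y ∈ τ q ∨ ∃ a, δ q a ≠ none ∧ y = [a]) → x <+: y → x = y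
  disj : ∀ q a, δ q a ≠ none → [a] ∉ τ q

/-- `u ∈ T*` -/
def Star {α : Type} (T : Finset (List α)) (u : List α) : Prop :=
  ∃ l : List (List α), (∀ y ∈ l, y ∈ T) ∧ u = l.flatten

inductive Conf (Q : Type) (s : ℕ) | run (q : Q) (w : List (Fin s)) | acc | rej

variable {Q : Type} {s : ℕ} (A : DFAtw Q s)

inductive Step : Conf Q s → Conf Q s → Prop
  | read {q q' u a v} : Star (A.τ q) u → A.δ q a = some q' →
      Step (.run q (u ++ a :: v)) (.run q' (u ++ v))
  | stuck {q u a v} : Star (A.τ q) u → A.δ q a = none → (¬∃ y ∈ A.τ q, y <+: a :: v) →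
      Step (.run q (u ++ a :: v)) .rej
  | yes {q w} : Star (A.τ q) w → q ∈ A.F → Step (.run q w) .acc
  | no {q w} : Star (A.τ q) w → q ∉ A.F → Step (.run q w) .rej

/-- the configuration with state `q` and tape `w` reaches Accept -/
def Acc (q : Q) (w : List (Fin s)) : Prop := Relation.ReflTransGen (Step A) (.run q w) .acc

/-- initial state of the machine: register 0 holds `|w|`, cell `i < |w|` holds `w_i + 1`, all
else is `0` -/
def init (w : List (Fin s)) : St :=
  ⟨fun i => if i = 0 then w.length else 0, fun i => if h : i < w.length then w[i] + 1 else 0⟩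

abbrev S (Q : Type) (s L : ℕ) := Option (Q ⊕ Q × {p : List (Fin s) // p.length ≤ L})

variable {L : ℕ}

def root (q : Q) : S Q s L := some (.inr (q, ⟨[], Nat.zero_le _⟩))

def tr (t : S Q s L) (a : Fin s) : S Q s L :=
  match t with
  | some (.inr (q, p)) => if p.1 = [] ∧ (A.δ q a).isSome then (A.δ q a).map .inl else
      if p.1 ++ [a] ∈ A.τ q then root q else
        if h : (p.1 ++ [a]).length ≤ L then some (.inr (q, ⟨_, h⟩)) else none
  | t => t

theorem absorb (q : Q) (y : List (Fin s)) :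
    y.foldl (tr A (L := L)) (some (.inl q)) = some (.inl q) := by
  induction y with
  | nil => rfl
  | cons a y ih => exact ih

theorem back (q : Q) (y : List (Fin s)) : ∀ q' p, y.foldl (tr A (L := L)) (root q) =
    some (.inr (q', p)) → q' = q ∧ ∃ u, Star (A.τ q) u ∧ y = u ++ p.1 := by
  induction y using List.reverseRecOn with
  | nil =>
    rintro q' p ⟨⟩
    exact ⟨rfl, [], ⟨[], by simp, rfl⟩, rfl⟩
  | append_singleton y a ih =>
    intro q' p h
    rw [List.foldl_concat] at h
    rcases e : y.foldl (tr A (L := L)) (root q) with _ | t | ⟨q1, p1⟩ <;> rw [e] at h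
    · cases h
    · cases h
    obtain ⟨rfl, u, ⟨l, h1, rfl⟩, rfl⟩ := ih _ _ e
    simp only [tr] at h
    split_ifs at h with h2 h3 h4
    · rcases e' : A.δ q1 a with _ | q2 <;> simp [e'] at h
    · cases h
      exact ⟨rfl, _, ⟨l ++ [p1.1 ++ [a]], by simpa [or_imp, forall_and, h3] using h1, rfl⟩, by simp⟩
    · cases h
      exact ⟨rfl, _, ⟨l, h1, rfl⟩, by simp⟩

theorem first {q q' : Q} {y : List (Fin s)} {a : Fin s}
    (h1 : ∀ q', y.foldl (tr A (L := L)) (root q) ≠ some (.inl q'))
    (h2 : (y ++ [a]).foldl (tr A (L := L)) (root q) = some (.inl q')) :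
    Star (A.τ q) y ∧ A.δ q a = some q' := by
  rw [List.foldl_concat] at h2
  rcases e : y.foldl (tr A (L := L)) (root q) with _ | t | ⟨q1, p1⟩ <;> rw [e] at h2
  · cases h2
  · exact absurd e (h1 _)
  obtain ⟨rfl, u, h3, rfl⟩ := back A q y _ _ e
  simp only [tr, root] at h2
  split_ifs at h2 with h4 h5 h6
  · refine ⟨by simpa [h4.1] using h3, ?_⟩
    rcases e' : A.δ q1 a with _ | q2 <;> simp_all
  all_goals cases h2

variable (hL : ∀ q, ∀ x ∈ A.τ q, x.length ≤ L)
include hL

theorem word (q : Q) (y : List (Fin s)) : ∀ p : {p : List (Fin s) // p.length ≤ L},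
    p.1 ++ y ∈ A.τ q → y ≠ [] → y.foldl (tr A) (some (.inr (q, p))) = root q := by
  induction y with
  | nil => simp
  | cons a y ih =>
    intro p h _
    have pf : p.1 ++ [a] <+: p.1 ++ a :: y := ⟨y, by simp⟩
    simp only [List.foldl_cons, tr]
    split_ifs with h1 h2 h3
    · have h4 : A.δ q a ≠ none := Option.isSome_iff_ne_none.1 h1.2
      rw [h1.1] at h pf
      exact absurd (A.code q ⟨_, h⟩ _ _ (.inr ⟨a, h4, rfl⟩) (.inl h) pf ▸ h) (A.disj q a h4)
    · have := A.code q ⟨_, h⟩ _ _ (.inl h2) (.inl h) pf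
      rw [show y = [] by simpa using this]
      rfl
    · exact ih _ (by simpa using h) fun e => h2 (e ▸ h)
    · exact absurd (pf.length_le.trans (hL q _ h)) h3

theorem star {q : Q} {u : List (Fin s)} (h : Star (A.τ q) u) :
    u.foldl (tr A (L := L)) (root q) = root q := by
  obtain ⟨l, h, rfl⟩ := h
  induction l with
  | nil => rfl
  | cons x l ih =>
    rw [List.flatten_cons, List.foldl_append]
    rcases eq_or_ne x [] with rfl | e
    · exact ih fun y hy => h y (by simp [hy])
    · rw [root, word A hL q x ⟨[], _⟩ (h x (by simp)) e]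
      exact ih fun y hy => h y (by simp [hy])

theorem found {q q' : Q} {u : List (Fin s)} {a : Fin s} (h : Star (A.τ q) u)
    (h' : A.δ q a = some q') (v : List (Fin s)) :
    (u ++ a :: v).foldl (tr A (L := L)) (root q) = some (.inl q') := by
  rw [List.foldl_append, star A hL h, List.foldl_cons, ← absorb A q' v]
  simp [tr, root, h']

theorem acc_read {q q' : Q} {u v : List (Fin s)} {a : Fin s} (h : Star (A.τ q) u)
    (h' : A.δ q a = some q') : Acc A q' (u ++ v) ↔ Acc A q (u ++ a :: v) := by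
  refine ⟨.head (.read h h'), fun h1 => ?_⟩
  obtain ⟨c, h2, h3⟩ := h1.cases_head.resolve_left (by simp)
  have rej : ¬Relation.ReflTransGen (Step A) .rej .acc := fun h => by
    obtain ⟨c, ⟨⟩, -⟩ := h.cases_head.resolve_left (by simp)
  generalize e : u ++ a :: v = w at h2
  cases h2 with
  | @read _ q2 u' b v' k1 k2 =>
    have key : ∀ {u u' v v' : List (Fin s)} {a b : Fin s} {q1 : Q}, Star (A.τ q) u →
        Star (A.τ q) u' → A.δ q a = some q1 → u ++ a :: v = u' ++ b :: v' →
        u'.length ≤ u.length := by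
      intro u u' v v' a b q1 h1 h2 h3 e
      by_contra hl
      obtain ⟨z, hz⟩ : u ++ [a] <+: u' := List.prefix_of_prefix_length_le (l₃ := u ++ a :: v)
        ⟨v, by simp⟩ ⟨_, e.symm⟩ (by simp; omega)
      have := found A hL h1 h3 z
      rw [← List.singleton_append, ← List.append_assoc, hz, star A hL h2] at this
      cases this
    obtain ⟨rfl, e'⟩ := List.append_inj e ((key k1 h k2 e.symm).antisymm (key h k1 h' e))
    cases e'
    cases h'.symm.trans k2
    exact h3
  | stuck => exact absurd h3 rej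
  | no => exact absurd h3 rej
  | yes k1 =>
    have := found A hL h h' v
    rw [e, star A hL k1] at this
    cases this

theorem acc_end {q : Q} {w : List (Fin s)}
    (h : ∀ q', w.foldl (tr A (L := L)) (root q) ≠ some (.inl q')) :
    (∃ q' ∈ A.F, w.foldl (tr A (L := L)) (root q) = root q') ↔ Acc A q w := by
  refine ⟨fun ⟨q', h1, h2⟩ => ?_, fun h1 => ?_⟩
  · obtain ⟨rfl, u, h3, rfl⟩ := back A q w _ _ h2
    exact .single (.yes (by simpa using h3) h1)
  obtain ⟨c, h2, h3⟩ := h1.cases_head.resolve_left (by simp)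
  have rej : ¬Relation.ReflTransGen (Step A) .rej .acc := fun h => by
    obtain ⟨c, ⟨⟩, -⟩ := h.cases_head.resolve_left (by simp)
  cases h2 with
  | read k1 k2 => exact absurd (found A hL k1 k2 _) (h _)
  | stuck => exact absurd h3 rej
  | no => exact absurd h3 rej
  | yes k1 k2 => exact ⟨q, k2, star A hL k1⟩

omit hL

def lw (s x : ℕ) : List (Fin s) := if h : 0 < x ∧ x ≤ s then [⟨x - 1, by omega⟩] else []

def wd (s : ℕ) (m : ℕ → ℕ) : ℕ → List (Fin s)
  | 0 => []
  | k + 1 => wd s m k ++ lw s (m k)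

theorem wd_congr {m m' : ℕ → ℕ} {j : ℕ} : ∀ N, j ≤ N → (∀ i < N, j ≤ i → m i = m' i) →
    ∃ v, wd s m N = wd s m j ++ v ∧ wd s m' N = wd s m' j ++ v := by
  intro N h
  induction N, h using Nat.le_induction with
  | base => exact fun _ => ⟨[], by simp⟩
  | succ N h ih =>
    intro h1
    obtain ⟨v, a1, a2⟩ := ih fun i hi => h1 i (by omega)
    exact ⟨v ++ lw s (m N), by simp [wd, a1], by simp [wd, a2, h1 N (by omega) h]⟩

theorem wd_init (w : List (Fin s)) (k : ℕ) : wd s (init w).m k = w.take k := by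
  induction k with
  | zero => rfl
  | succ k ih =>
    rw [wd, ih, List.take_add_one]
    by_cases h : k < w.length
    · simp [init, lw, h]
    · simp [init, lw, h]

/-- Membership is decided by a word RAM program in time `O(n √n)`. -/
theorem result {Q : Type} [Finite Q] {s : ℕ} (A : DFAtw Q s) : ∃ (p : P) (C : ℕ), s < C ∧
    ∀ w : List (Fin s), ∃ σ t, Run (C * (w.length + 1)) p (init w) σ t ∧
      t ≤ C * (w.length + 1) * (w.length.sqrt + 1) ∧ (σ.r 0 = 1 ↔ Acc A A.q0 w) := by
  classical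
  have := Fintype.ofFinite Q
  obtain ⟨L, hL⟩ : ∃ L, ∀ q, ∀ x ∈ A.τ q, x.length ≤ L :=
    ⟨Finset.univ.sup fun q => (A.τ q).sup List.length, fun q x hx =>
      (Finset.le_sup (f := List.length) hx).trans
        (Finset.le_sup (f := fun q => (A.τ q).sup List.length) (Finset.mem_univ q))⟩
  have : Finite {p : List (Fin s) // p.length ≤ L} := (List.finite_length_le _ L).to_subtype
  have : Finite (Function.End (S Q s L)) := inferInstanceAs (Finite (S Q s L → S Q s L))
  have : Finite (Function.End (S Q s L))ᵐᵒᵖ := .of_equiv _ opEquiv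
  obtain ⟨k, ⟨e⟩⟩ := Finite.exists_equiv_fin (Function.End (S Q s L))ᵐᵒᵖ
  let eff : List (Fin s) → (Function.End (S Q s L))ᵐᵒᵖ := fun x => op fun t => x.foldl (tr A) t
  let cst : S Q s L → (Function.End (S Q s L))ᵐᵒᵖ := fun t => op fun _ => t
  let d : ℕ → (Function.End (S Q s L))ᵐᵒᵖ := fun x =>
    if x ≤ s then eff (lw s x) else if h : x - (s + 1) < k then e.symm ⟨_, h⟩ else 1
  let c : (Function.End (S Q s L))ᵐᵒᵖ → ℕ := fun f => s + 1 + e f
  have hd : ∀ f, d (c f) = f := fun f => by
    simp only [d, c]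
    rw [if_neg (by omega), dif_pos (by simp)]
    simp
  have hp : ∀ m j, (∀ i < j, m i ≤ s) → ∀ t, (cst t * pr d m 0 j).unop none =
      (wd s m j).foldl (tr A) t := fun m j h t => by
    induction j with
    | zero => rfl
    | succ j ih =>
      rw [pr, ← mul_assoc, wd, List.foldl_append, ← ih fun i hi => h i (by omega), zero_add]
      simp only [d, if_pos (h j (by omega))]
      rfl
  let G : (Function.End (S Q s L))ᵐᵒᵖ → Prop := fun f => ∃ q, f.unop none = some (.inl q)
  obtain ⟨K, hK⟩ : ∃ K, K = s + 1 + k := ⟨_, rfl⟩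
  refine ⟨prog d c K (fun x => if G (d x) then 1 else 0)
    (fun x => match (d x).unop none with | some (.inl q) => c (cst (root q)) | _ => 0)
    (fun x => if ∃ q ∈ A.F, (d x).unop none = root q then 1 else 0) (c (cst (root A.q0))),
    5 * (K * K + K + 7) + K + 50, by omega, fun w => ?_⟩
  have cK : ∀ f, c f < K := fun f => by have := (e f).2; simp only [c]; omega
  refine (prog_ok (W := (5 * (K * K + K + 7) + K + 50) * (w.length + 1))
    hd cK (by nlinarith) (G := G)
    (g := fun x => if G (d x) then 1 else 0)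
    (nx := fun x => match (d x).unop none with | some (.inl q) => c (cst (root q)) | _ => 0)
    (ot := fun x => if ∃ q ∈ A.F, (d x).unop none = root q then 1 else 0)
    (s0 := c (cst (root A.q0))) (n := w.length) (Z := Acc A A.q0 w) (σ := init w)
    (I := fun N x m => ∃ q, x = c (cst (root q)) ∧ (∀ i < N, m i ≤ s) ∧
      (Acc A q (wd s m N) ↔ Acc A A.q0 w))
    (by simp [d, lw, eff]; rfl) (fun f h => by simp [hd, h]) (fun f h => by simp [hd, h])
    (fun x => by split_ifs <;> omega) ?_ ?_ ?_ rfl (fun i => ?_)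
    (fun i hi => by simp [init, hi]) ?_ (by nlinarith)).elim
      fun σ ⟨t, h1, h2, h3⟩ => ⟨σ, t, h2, h1, h3⟩
  · rintro N _ m ⟨q, rfl, -⟩
    exact ⟨cK _, fun ⟨q', h⟩ => by rw [hd] at h; cases h⟩
  · rintro N _ m ⟨q, rfl, a1, a2⟩ j hj a3 ⟨q', a4⟩ m' a5
    simp only [hd] at a3 a4 ⊢
    simp only [a4]
    rw [hp m _ fun i hi => a1 i (by omega), wd] at a4
    have a6 : ∀ q', (wd s m j).foldl (tr A (L := L)) (root q) ≠ some (.inl q') := fun q' h =>
      a3 ⟨q', by rw [hp m _ fun i hi => a1 i (by omega), h]⟩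
    obtain ⟨a, ha⟩ : ∃ a, lw s (m j) = [a] := by
      unfold lw at a4 ⊢
      split_ifs at a4 ⊢
      exacts [⟨_, rfl⟩, absurd (by simpa using a4) (a6 q')]
    rw [ha] at a4
    obtain ⟨b1, b2⟩ := first A a6 a4
    obtain ⟨v, b3, b4⟩ := wd_congr (s := s) (m := m) (m' := m') (j := j + 1) N hj fun i hi h => by
      rw [a5 i hi, update_of_ne (by omega)]
    obtain ⟨v', b5, b6⟩ := wd_congr (s := s) (m := m) (m' := m') (j := 0) j j.zero_le
      fun i hi _ => by rw [a5 i (by omega), update_of_ne (by omega)]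
    refine ⟨q', rfl, fun i hi => ?_, ?_⟩
    · rw [a5 i hi, update_apply]
      split_ifs
      exacts [s.zero_le, a1 i hi]
    · rw [← a2, b3, b4, wd, wd, ha, a5 j hj, update_self, b6.trans b5.symm]
      simpa [lw] using acc_read A hL b1 b2
  · rintro N _ m x ⟨q, rfl, a1, a2⟩ a3 a4
    rw [hd] at a3
    rw [← a2, ← acc_end A hL fun q' h => a4 ⟨q', by rw [a3, hp m N a1, h]⟩, a3, hp m N a1]
    simp
  · simp only [init]
    split_ifs with h
    · have := w[i].2; omega
    · omega
  · intro N m hN h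
    obtain ⟨v, b1, b2⟩ := wd_congr (s := s) (j := 0) N N.zero_le fun i hi _ => h i hi
    refine ⟨_, rfl, fun i hi => ?_, by rw [b1.trans b2.symm, wd_init, List.take_of_length_le hN]⟩
    rw [h i hi]
    simp only [init]
    split_ifs with h
    · have := w[i].2; omega
    · omega

end Pool.Agent.Results.MP_cf558f_lc.Fast
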